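import Pool.Agent.Helper3.QR.Ct

/-!
# T07: Tutte's inequality
-/

namespace QR

namespace T07

noncomputable section

/-- the glued map -/
structure Gl {a b a' c : ℕ} (x1 : X a b) (x2 : X a' c) (N P : ℕ)
    (m : RMap (Fin (4 * a + 2 * b) ⊕ Fin (4 * a' + 2 * c) ⊕ Bool)) : Prop where
  quad : m.IsQuad (Sum.inr (Sum.inr true)) N P
  opp : m.opp (Sum.inr (Sum.inr true)) = Sum.inr (Sum.inr false)
  p1 : Piece x1.1.1 x1.1.2 m (Sum.inr (Sum.inr true)) (Sum.inr (Sum.inr true)) Sum.inl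
  p2 : Piece x2.1.1 x2.1.2 m (Sum.inr (Sum.inr true)) (Sum.inr (Sum.inr false))
    (fun d => Sum.inr (Sum.inl d))

theorem rel_of_gl {a b a' c n N P : ℕ} {x1 : X a b} {x2 : X a' c}
    {m : RMap (Fin (4 * a + 2 * b) ⊕ Fin (4 * a' + 2 * c) ⊕ Bool)} (h : Gl x1 x2 N P m)
    (φ : Fin (4 * a + 2 * b) ⊕ Fin (4 * a' + 2 * c) ⊕ Bool ≃ Fin n) :
    Rel (tr φ m, φ (Sum.inr (Sum.inr true))) ((φ, x1, x2) : Dat a b a' c n) where
  e := rfl
  e' := by
    show (tr φ m).opp (φ (Sum.inr (Sum.inr true))) = _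
    rw [tr_opp, h.opp]
  p1 := h.p1.tr φ
  p2 := by
    have := h.p2.tr φ
    show Piece x2.1.1 x2.1.2 (tr φ m) _ ((tr φ m).opp (φ (Sum.inr (Sum.inr true)))) _
    rw [tr_opp, h.opp]
    exact this

theorem isEmpty00 : IsEmpty (Fin (4 * 0 + 2 * 0)) := ⟨fun d => absurd d.2 (by simp)⟩

theorem piece_empty {F : Type} (x : X 0 0) (m : RMap F) (e r : F) (φ : Fin (4 * 0 + 2 * 0) → F) :
    Piece x.1.1 x.1.2 m e r φ where
  inj := fun d => absurd d.2 (by simp)
  rot := fun d => absurd d.2 (by simp)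
  opp := fun d => absurd d.2 (by simp)
  root := fun d => absurd d.2 (by simp)

theorem glue (h4 : ST_T04S) (h5 : ST_T05S) {a b a' c : ℕ} (x1 : X a b) (x2 : X a' c) :
    ∃ m, Gl x1 x2 (a + a') (b + c + 1) m ∧
      (x1.1.2 = none → m.rot (Sum.inr (Sum.inr true)) = Sum.inr (Sum.inr true)) ∧
      (x2.1.2 = none → m.rot (Sum.inr (Sum.inr false)) = Sum.inr (Sum.inr false)) := by
  rcases x1.2 with ⟨ha, hb, hn1⟩ | ⟨hb, o1, ho1, hq1⟩
  · subst ha hb
    have := isEmpty00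
    rcases x2.2 with ⟨ha', hc, hn2⟩ | ⟨hc, o2, ho2, hq2⟩
    · subst ha' hc
      obtain ⟨m0, q, r1, r2, o⟩ := h5.2
      let κ : Bool ≃ Fin (4 * 0 + 2 * 0) ⊕ Fin (4 * 0 + 2 * 0) ⊕ Bool :=
        ((Equiv.emptySum _ _).trans (Equiv.emptySum _ _)).symm
      have hκ : ∀ x, κ x = Sum.inr (Sum.inr x) := fun x => rfl
      refine ⟨tr κ m0, ⟨?_, ?_, piece_empty _ _ _ _ _, piece_empty _ _ _ _ _⟩, fun _ => ?_, fun _ => ?_⟩
      · exact isQuad_tr κ m0 true 0 1 q
      · rw [← hκ, tr_opp, o]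
        rfl
      · rw [← hκ, tr_rot, r1]
      · rw [← hκ, tr_rot, r2]
    · obtain ⟨m0, q, o, oo, rf, rt, rs, rp⟩ := (h5.1 (Fin (4 * a' + 2 * c)) x2.1.1 o2 a' c hc hq2).2
      let κ : Fin (4 * a' + 2 * c) ⊕ Bool ≃ Fin (4 * 0 + 2 * 0) ⊕ Fin (4 * a' + 2 * c) ⊕ Bool :=
        (Equiv.emptySum _ _).symm
      have hκ : ∀ x, κ x = Sum.inr x := fun x => rfl
      refine ⟨tr κ m0, ⟨?_, ?_, piece_empty _ _ _ _ _, ?_⟩, fun _ => ?_, fun h => ?_⟩
      · have q2 : m0.IsQuad (Sum.inr true) (0 + a') (0 + c + 1) := by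
          rw [Nat.zero_add, Nat.zero_add]
          exact q
        exact isQuad_tr κ m0 (Sum.inr true) (0 + a') (0 + c + 1) q2
      · rw [← hκ, tr_opp, o]
        rfl
      · have hp : Piece x2.1.1 x2.1.2 m0 (Sum.inr true) (Sum.inr false) Sum.inl := by
          refine ⟨Sum.inl_injective, ?_, oo, ?_⟩
          · intro d
            unfold sk
            rw [o]
            by_cases hd : x2.1.1.rot d = o2
            · rw [if_pos (Or.inr (rp d hd)), rp d hd, rf, hd]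
            · rw [if_neg, rs d hd]
              rw [rs d hd]
              rintro (h | h) <;> simp at h
          · intro oz hoz
            rw [ho2] at hoz
            cases hoz
            exact rf.symm
        exact hp.tr κ
      · rw [← hκ, tr_rot, rt]
      · rw [ho2] at h
        exact absurd h (by simp)
  · rcases x2.2 with ⟨ha', hc, hn2⟩ | ⟨hc, o2, ho2, hq2⟩
    · subst ha' hc
      have := isEmpty00
      obtain ⟨m0, q, o, oo, rt, rf, rs, rp⟩ := (h5.1 (Fin (4 * a + 2 * b)) x1.1.1 o1 a b hb hq1).1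
      let κ : Fin (4 * a + 2 * b) ⊕ Bool ≃ Fin (4 * a + 2 * b) ⊕ Fin (4 * 0 + 2 * 0) ⊕ Bool :=
        Equiv.sumCongr (Equiv.refl _) (Equiv.emptySum _ _).symm
      have hκ : ∀ x, κ (Sum.inr x) = Sum.inr (Sum.inr x) := fun x => rfl
      have hκ' : ∀ x, κ (Sum.inl x) = Sum.inl x := fun x => rfl
      refine ⟨tr κ m0, ⟨?_, ?_, ?_, piece_empty _ _ _ _ _⟩, fun h => ?_, fun _ => ?_⟩
      · exact isQuad_tr κ m0 (Sum.inr true) a (b + 1) q
      · rw [← hκ, tr_opp, o]
        rfl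
      · have hp : Piece x1.1.1 x1.1.2 m0 (Sum.inr true) (Sum.inr true) Sum.inl := by
          refine ⟨Sum.inl_injective, ?_, oo, ?_⟩
          · intro d
            unfold sk
            rw [o]
            by_cases hd : x1.1.1.rot d = o1
            · rw [if_pos (Or.inl (rp d hd)), rp d hd, rt, hd]
            · rw [if_neg, rs d hd]
              rw [rs d hd]
              rintro (h | h) <;> simp at h
          · intro oz hoz
            rw [ho1] at hoz
            cases hoz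
            exact rt.symm
        exact hp.tr κ
      · rw [ho1] at h
        exact absurd h (by simp)
      · rw [← hκ, tr_rot, rf]
    · obtain ⟨m, q, o, oo1, oo2, rt, rf, rs1, rs2, rp1, rp2⟩ :=
        h4 (Fin (4 * a + 2 * b)) (Fin (4 * a' + 2 * c)) x1.1.1 x2.1.1 o1 o2 a b a' c hb hc hq1 hq2
      refine ⟨m, ⟨q, o, ?_, ?_⟩, fun h => ?_, fun h => ?_⟩
      · refine ⟨Sum.inl_injective, ?_, oo1, ?_⟩
        · intro d
          unfold sk
          rw [o]
          by_cases hd : x1.1.1.rot d = o1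
          · rw [if_pos (Or.inl (rp1 d hd)), rp1 d hd, rt, hd]
          · rw [if_neg, rs1 d hd]
            rw [rs1 d hd]
            rintro (h | h) <;> simp at h
        · intro oz hoz
          rw [ho1] at hoz
          cases hoz
          exact rt.symm
      · refine ⟨?_, ?_, oo2, ?_⟩
        · intro d d' h
          simpa using h
        · intro d
          unfold sk
          rw [o]
          by_cases hd : x2.1.1.rot d = o2
          · rw [if_pos (Or.inr (rp2 d hd)), rp2 d hd, rf, hd]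
          · rw [if_neg, rs2 d hd]
            rw [rs2 d hd]
            rintro (h | h) <;> simp at h
        · intro oz hoz
          rw [ho2] at hoz
          cases hoz
          exact rf.symm
      · rw [ho1] at h
        exact absurd h (by simp)
      · rw [ho2] at h
        exact absurd h (by simp)

theorem star (h6 : ST_T06S) {N P : ℕ} (hP : 2 ≤ P) (x1 : X N P) (x2 : X 0 0) :
    ∃ m, Gl x1 x2 (N + 1) (P - 1) m ∧
      ∃ z, m.rot (Sum.inr (Sum.inr false)) = Sum.inl z := by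
  rcases x1.2 with ⟨ha, hb, hn1⟩ | ⟨hb, o1, ho1, hq1⟩
  · omega
  · have := isEmpty00
    obtain ⟨m0, q, o, oo, rt, rf, rs, rp, rp3⟩ := h6 (Fin (4 * N + 2 * P)) x1.1.1 o1 N P hP hq1
    let κ : Fin (4 * N + 2 * P) ⊕ Bool ≃ Fin (4 * N + 2 * P) ⊕ Fin (4 * 0 + 2 * 0) ⊕ Bool :=
      Equiv.sumCongr (Equiv.refl _) (Equiv.emptySum _ _).symm
    have hκ : ∀ x, κ (Sum.inr x) = Sum.inr (Sum.inr x) := fun x => rfl
    refine ⟨tr κ m0, ⟨?_, ?_, ?_, piece_empty _ _ _ _ _⟩, (x1.1.1.face ^ 3) o1, ?_⟩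
    · exact isQuad_tr κ m0 (Sum.inr true) (N + 1) (P - 1) q
    · rw [← hκ, tr_opp, o]
      rfl
    · have hp : Piece x1.1.1 x1.1.2 m0 (Sum.inr true) (Sum.inr true) Sum.inl := by
        refine ⟨Sum.inl_injective, ?_, oo, ?_⟩
        · intro d
          unfold sk
          rw [o]
          by_cases hd : x1.1.1.rot d = o1
          · rw [if_pos (Or.inl (rp d hd)), rp d hd, rt, hd]
          · by_cases hd3 : x1.1.1.rot d = (x1.1.1.face ^ 3) o1
            · rw [if_pos (Or.inr (rp3 d hd3)), rp3 d hd3, rf, hd3]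
            · rw [if_neg, rs d hd hd3]
              rw [rs d hd hd3]
              rintro (h | h) <;> simp at h
        · intro oz hoz
          rw [ho1] at hoz
          cases hoz
          exact rt.symm
      exact hp.tr κ
    · rw [← hκ, tr_rot, rf]
      rfl

/-- the maps of type `(a, b)` -/
def PA (a b a' c n : ℕ) (y : RMap (Fin n) × Fin n) : Prop :=
  ∃ t : Dat a b a' c n, Rel y t ∧ (t.2.1.1.2 = none → y.1.rot y.2 = y.2) ∧
    (t.2.2.1.2 = none → y.1.rot (y.1.opp y.2) = y.1.opp y.2)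

/-- the maps where the root edge cuts off a square -/
def PS (a b n : ℕ) (y : RMap (Fin n) × Fin n) : Prop :=
  ∃ t : Dat a b 0 0 n, Rel y t ∧ ∃ z, y.1.rot (y.1.opp y.2) = t.1 (Sum.inl z)

theorem main1 (h4 : ST_T04S) (h5 : ST_T05S) {N P a b : ℕ} (ha : a ≤ N) (hb : b < P) :
    ∃ R : Set (RMap (Fin (4 * N + 2 * P)) × Fin (4 * N + 2 * P)), R ⊆ GQ N P ∧
      ((4 * N + 2 * P).factorial : ℝ) * (VN a b * VN (N - a) (P - 1 - b)) ≤ R.ncard ∧
      ∀ y ∈ R, PA a b (N - a) (P - 1 - b) (4 * N + 2 * P) y := by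
  choose m hm using fun (x1 : X a b) (x2 : X (N - a) (P - 1 - b)) => glue h4 h5 x1 x2
  let Ψ : Dat a b (N - a) (P - 1 - b) (4 * N + 2 * P) →
      RMap (Fin (4 * N + 2 * P)) × Fin (4 * N + 2 * P) :=
    fun t => (tr t.1 (m t.2.1 t.2.2), t.1 (Sum.inr (Sum.inr true)))
  have hΨ : ∀ t, Rel (Ψ t) t := fun t => rel_of_gl (hm t.2.1 t.2.2).1 t.1
  have h1 : a + (N - a) = N := by omega
  have h2 : b + (P - 1 - b) + 1 = P := by omega
  refine ⟨Set.range Ψ, ?_, count (by omega) Ψ hΨ, ?_⟩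
  · rintro _ ⟨t, rfl⟩
    have := isQuad_tr t.1 _ _ _ _ (hm t.2.1 t.2.2).1.quad
    rw [h1, h2] at this
    exact this
  · rintro _ ⟨t, rfl⟩
    refine ⟨t, hΨ t, fun h => ?_, fun h => ?_⟩
    · show (tr t.1 (m t.2.1 t.2.2)).rot (t.1 (Sum.inr (Sum.inr true))) = t.1 (Sum.inr (Sum.inr true))
      rw [tr_rot, (hm t.2.1 t.2.2).2.1 h]
    · show (tr t.1 (m t.2.1 t.2.2)).rot ((tr t.1 (m t.2.1 t.2.2)).opp (t.1 (Sum.inr (Sum.inr true))))
        = (tr t.1 (m t.2.1 t.2.2)).opp (t.1 (Sum.inr (Sum.inr true)))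
      rw [tr_opp, (hm t.2.1 t.2.2).1.opp, tr_rot, (hm t.2.1 t.2.2).2.2 h]

theorem VN00 : VN 0 0 = 1 := by simp [VN]

theorem main2 (h6 : ST_T06S) {N P : ℕ} (hN : 1 ≤ N) (hP : 1 ≤ P) :
    ∃ R : Set (RMap (Fin (4 * N + 2 * P)) × Fin (4 * N + 2 * P)), R ⊆ GQ N P ∧
      ((4 * N + 2 * P).factorial : ℝ) * VN (N - 1) (P + 1) ≤ R.ncard ∧
      ∀ y ∈ R, PS (N - 1) (P + 1) (4 * N + 2 * P) y := by
  choose m hm using fun (x1 : X (N - 1) (P + 1)) (x2 : X 0 0) => star h6 (by omega) x1 x2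
  let Ψ : Dat (N - 1) (P + 1) 0 0 (4 * N + 2 * P) →
      RMap (Fin (4 * N + 2 * P)) × Fin (4 * N + 2 * P) :=
    fun t => (tr t.1 (m t.2.1 t.2.2), t.1 (Sum.inr (Sum.inr true)))
  have hΨ : ∀ t, Rel (Ψ t) t := fun t => rel_of_gl (hm t.2.1 t.2.2).1 t.1
  have h1 : N - 1 + 1 = N := by omega
  have h2 : P + 1 - 1 = P := by omega
  refine ⟨Set.range Ψ, ?_, ?_, ?_⟩
  · rintro _ ⟨t, rfl⟩
    have := isQuad_tr t.1 _ _ _ _ (hm t.2.1 t.2.2).1.quad
    rw [h1, h2] at this
    exact this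
  · have := count (by omega) Ψ hΨ
    rwa [VN00, mul_one] at this
  · rintro _ ⟨t, rfl⟩
    obtain ⟨z, hz⟩ := (hm t.2.1 t.2.2).2
    refine ⟨t, hΨ t, z, ?_⟩
    show (tr t.1 (m t.2.1 t.2.2)).rot ((tr t.1 (m t.2.1 t.2.2)).opp (t.1 (Sum.inr (Sum.inr true))))
        = t.1 (Sum.inl z)
    rw [tr_opp, (hm t.2.1 t.2.2).1.opp, tr_rot, hz]

theorem sep1 {a b a' c a2 b2 a2' c2 n : ℕ} {y : RMap (Fin n) × Fin n} (h : PA a b a' c n y)
    (h' : PA a2 b2 a2' c2 n y) : a = a2 ∧ b = b2 := by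
  obtain ⟨⟨φ, x1, x2⟩, hR, hn1, hn2⟩ := h
  obtain ⟨⟨φ', x1', x2'⟩, hR', hn1', hn2'⟩ := h'
  rcases x1.2 with ⟨ha, hb, hn⟩ | ⟨hb, o1, ho1, hq1⟩
  · rcases x1'.2 with ⟨ha', hb', hn'⟩ | ⟨hb', o1', ho1', hq1'⟩
    · exact ⟨by omega, by omega⟩
    · exfalso
      have e1 := hR'.p1.root o1' ho1'
      rw [hn1 hn, hR'.e] at e1
      have := φ'.injective e1
      simp at this
  · rcases x1'.2 with ⟨ha', hb', hn'⟩ | ⟨hb', o1', ho1', hq1'⟩
    · exfalso
      have e1 := hR.p1.root o1 ho1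
      rw [hn1' hn', hR.e] at e1
      have := φ.injective e1
      simp at this
    · have p1 := hR.p1
      have p1' := hR'.p1
      simp only at p1 p1'
      rw [ho1] at p1
      rw [ho1'] at p1'
      obtain ⟨θ, -, h2, h3⟩ := p1.uniq p1' hq1.planar.2.1 hq1'.planar.2.1
      have hc := Fintype.card_congr θ
      rw [Fintype.card_fin, Fintype.card_fin] at hc
      have hq := isQuad_tr θ _ _ _ _ hq1
      rw [← h3, h2] at hq
      have := hq.outer.symm.trans hq1'.outer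
      omega

theorem sep2 {a b a' c a2 b2 n : ℕ} {y : RMap (Fin n) × Fin n} (h : PA a b a' c n y)
    (h' : PS a2 b2 n y) (hb2 : 1 ≤ b2) : False := by
  obtain ⟨⟨φ, x1, x2⟩, hR, hn1, hn2⟩ := h
  obtain ⟨⟨φ', x1', x2'⟩, hR', z, hz⟩ := h'
  rcases x1'.2 with ⟨ha', hb', hn'⟩ | ⟨hb', o1', ho1', hq1'⟩
  · omega
  · rcases x1.2 with ⟨ha, hb, hn⟩ | ⟨hb, o1, ho1, hq1⟩
    · have e1 := hR'.p1.root o1' ho1'
      rw [hn1 hn, hR'.e] at e1
      have := φ'.injective e1
      simp at this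
    · rcases x2.2 with ⟨-, -, hn⟩ | ⟨-, o2, ho2, hq2⟩
      · rw [hn2 hn, hR'.e'] at hz
        have := φ'.injective hz
        simp at this
      · have p1 := hR.p1
        have p1' := hR'.p1
        simp only at p1 p1'
        rw [ho1] at p1
        rw [ho1'] at p1'
        obtain ⟨w, hw⟩ := p1'.sub p1 hq1'.planar.2.1 z
        have e2 := hR.p2.root o2 ho2
        simp only at hw e2 hz
        rw [hz, ← hw] at e2
        have := φ.injective e2
        simp at this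

end

end T07

noncomputable section

open Classical in
theorem st_T07 (h4 : ST_T04S) (h5 : ST_T05S) (h6 : ST_T06S) : ST_T07 := by
  intro N P hP
  set n := 4 * N + 2 * P with hn
  have : Finite (RMap (Fin n) × Fin n) := inferInstance
  let I : Finset (ℕ × ℕ) := Finset.range (N + 1) ×ˢ Finset.range P
  have hI : ∀ i : ℕ × ℕ, i ∈ I → i.1 ≤ N ∧ i.2 < P := by
    intro i hi
    have := Finset.mem_product.1 hi
    rw [Finset.mem_range, Finset.mem_range] at this
    omega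
  have key : ∀ i : ℕ × ℕ, ∃ R : Set (RMap (Fin n) × Fin n), i ∈ I → R ⊆ GQ N P ∧
      (n.factorial : ℝ) * (VN i.1 i.2 * VN (N - i.1) (P - 1 - i.2)) ≤ R.ncard ∧
      ∀ y ∈ R, T07.PA i.1 i.2 (N - i.1) (P - 1 - i.2) n y := by
    intro i
    by_cases hi : i ∈ I
    · obtain ⟨R, hR⟩ := T07.main1 h4 h5 (hI i hi).1 (hI i hi).2
      exact ⟨R, fun _ => hR⟩
    · exact ⟨∅, fun h => absurd h hi⟩
  choose R hR using key
  have hS : ∃ S : Set (RMap (Fin n) × Fin n), S ⊆ GQ N P ∧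
      (n.factorial : ℝ) * (if N = 0 then 0 else VN (N - 1) (P + 1)) ≤ S.ncard ∧
      ∀ y ∈ S, T07.PS (N - 1) (P + 1) n y := by
    by_cases hN : N = 0
    · exact ⟨∅, Set.empty_subset _, by simp [hN], fun y hy => absurd hy (Set.notMem_empty y)⟩
    · obtain ⟨S, h1, h2, h3⟩ := T07.main2 h6 (N := N) (P := P) (by omega) hP
      exact ⟨S, h1, by rw [if_neg hN]; exact h2, h3⟩
  obtain ⟨S, hS1, hS2, hS3⟩ := hS
  -- disjointness
  have hfin : ∀ T : Set (RMap (Fin n) × Fin n), T.Finite := fun T => Set.toFinite T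
  let U : Finset (RMap (Fin n) × Fin n) := I.biUnion (fun i => (hfin (R i)).toFinset)
  have hU : (U.card : ℝ) = ∑ i ∈ I, ((R i).ncard : ℝ) := by
    rw [Finset.card_biUnion]
    · push_cast
      refine Finset.sum_congr rfl fun i _ => ?_
      rw [Set.ncard_eq_toFinset_card _ (hfin (R i))]
    · intro i hi j hj hij
      rw [Function.onFun, Finset.disjoint_left]
      intro y hy hy'
      rw [Set.Finite.mem_toFinset] at hy hy'
      have := T07.sep1 ((hR i hi).2.2 y hy) ((hR j hj).2.2 y hy')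
      exact hij (Prod.ext this.1 this.2)
  have hD : Disjoint U (hfin S).toFinset := by
    rw [Finset.disjoint_left]
    intro y hy hy'
    obtain ⟨i, hi, hyi⟩ := Finset.mem_biUnion.1 hy
    rw [Set.Finite.mem_toFinset] at hyi hy'
    exact T07.sep2 ((hR i hi).2.2 y hyi) (hS3 y hy') (by omega)
  have hG : (U ∪ (hfin S).toFinset).card ≤ Nat.card {x // x ∈ GQ N P} := by
    have : Nat.card {x // x ∈ GQ N P} = (hfin (GQ N P)).toFinset.card := by
      rw [← Set.ncard_eq_toFinset_card _ (hfin (GQ N P))]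
      exact Nat.card_coe_set_eq _
    rw [this]
    refine Finset.card_le_card ?_
    intro y hy
    rw [Set.Finite.mem_toFinset]
    rcases Finset.mem_union.1 hy with hy | hy
    · obtain ⟨i, hi, hyi⟩ := Finset.mem_biUnion.1 hy
      rw [Set.Finite.mem_toFinset] at hyi
      exact (hR i hi).1 hyi
    · rw [Set.Finite.mem_toFinset] at hy
      exact hS1 hy
  rw [Finset.card_union_of_disjoint hD] at hG
  have hG' : ((U.card : ℝ) + ((hfin S).toFinset.card : ℝ)) ≤ (Nat.card {x // x ∈ GQ N P} : ℝ) := by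
    exact_mod_cast hG
  rw [hU, ← Set.ncard_eq_toFinset_card _ (hfin S)] at hG'
  have hsum : (n.factorial : ℝ) * (∑ a ∈ Finset.range (N + 1), ∑ b ∈ Finset.range P,
      VN a b * VN (N - a) (P - 1 - b)) ≤ ∑ i ∈ I, ((R i).ncard : ℝ) := by
    rw [← Finset.sum_product', Finset.mul_sum]
    exact Finset.sum_le_sum fun i hi => (hR i hi).2.1
  have hpos : (0 : ℝ) < (n.factorial : ℝ) := by exact_mod_cast Nat.factorial_pos n
  have hV : VN N P = (Nat.card {x // x ∈ GQ N P} : ℝ) / (n.factorial : ℝ) := by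
    unfold VN
    rw [if_neg (by omega)]
  rw [hV, le_div_iff₀ hpos]
  calc _ = (n.factorial : ℝ) * (∑ a ∈ Finset.range (N + 1), ∑ b ∈ Finset.range P,
      VN a b * VN (N - a) (P - 1 - b)) +
        (n.factorial : ℝ) * (if N = 0 then 0 else VN (N - 1) (P + 1)) := by ring
    _ ≤ _ := (add_le_add hsum hS2).trans hG'

end

end QR
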