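import Pool.Agent.Helper98.QR.StmtsT

/-!
# Stronger forms of T04, T05, T06 (the predecessors of the new darts are pinned down)
-/

namespace QR

noncomputable section

/-- T04 with the predecessors of the new darts -/
def ST_T04S : Prop :=
  ∀ (D1 D2 : Type) [Finite D1] [Finite D2] (m1 : RMap D1) (m2 : RMap D2) (o1 : D1) (o2 : D2)
    (N1 P1 N2 P2 : ℕ), 1 ≤ P1 → 1 ≤ P2 → m1.IsQuad o1 N1 P1 → m2.IsQuad o2 N2 P2 →
    ∃ m : RMap (D1 ⊕ D2 ⊕ Bool), m.IsQuad (Sum.inr (Sum.inr true)) (N1 + N2) (P1 + P2 + 1) ∧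
      m.opp (Sum.inr (Sum.inr true)) = Sum.inr (Sum.inr false) ∧
      (∀ d, m.opp (Sum.inl d) = Sum.inl (m1.opp d)) ∧
      (∀ d, m.opp (Sum.inr (Sum.inl d)) = Sum.inr (Sum.inl (m2.opp d))) ∧
      m.rot (Sum.inr (Sum.inr true)) = Sum.inl o1 ∧
      m.rot (Sum.inr (Sum.inr false)) = Sum.inr (Sum.inl o2) ∧
      (∀ d, m1.rot d ≠ o1 → m.rot (Sum.inl d) = Sum.inl (m1.rot d)) ∧
      (∀ d, m2.rot d ≠ o2 → m.rot (Sum.inr (Sum.inl d)) = Sum.inr (Sum.inl (m2.rot d))) ∧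
      (∀ d, m1.rot d = o1 → m.rot (Sum.inl d) = Sum.inr (Sum.inr true)) ∧
      (∀ d, m2.rot d = o2 → m.rot (Sum.inr (Sum.inl d)) = Sum.inr (Sum.inr false))

/-- T05 with the predecessors of the new darts -/
def ST_T05S : Prop :=
  (∀ (D1 : Type) [Finite D1] (m1 : RMap D1) (o1 : D1) (N1 P1 : ℕ), 1 ≤ P1 → m1.IsQuad o1 N1 P1 →
    (∃ m : RMap (D1 ⊕ Bool), m.IsQuad (Sum.inr true) N1 (P1 + 1) ∧
      m.opp (Sum.inr true) = Sum.inr false ∧ (∀ d, m.opp (Sum.inl d) = Sum.inl (m1.opp d)) ∧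
      m.rot (Sum.inr true) = Sum.inl o1 ∧ m.rot (Sum.inr false) = Sum.inr false ∧
      (∀ d, m1.rot d ≠ o1 → m.rot (Sum.inl d) = Sum.inl (m1.rot d)) ∧
      (∀ d, m1.rot d = o1 → m.rot (Sum.inl d) = Sum.inr true)) ∧
    (∃ m : RMap (D1 ⊕ Bool), m.IsQuad (Sum.inr true) N1 (P1 + 1) ∧
      m.opp (Sum.inr true) = Sum.inr false ∧ (∀ d, m.opp (Sum.inl d) = Sum.inl (m1.opp d)) ∧
      m.rot (Sum.inr false) = Sum.inl o1 ∧ m.rot (Sum.inr true) = Sum.inr true ∧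
      (∀ d, m1.rot d ≠ o1 → m.rot (Sum.inl d) = Sum.inl (m1.rot d)) ∧
      (∀ d, m1.rot d = o1 → m.rot (Sum.inl d) = Sum.inr false))) ∧
  (∃ m : RMap Bool, m.IsQuad true 0 1 ∧ m.rot true = true ∧ m.rot false = false ∧ m.opp true = false)

/-- T06 with the predecessors of the new darts -/
def ST_T06S : Prop :=
  ∀ (D1 : Type) [Finite D1] (m1 : RMap D1) (o1 : D1) (N1 P1 : ℕ), 2 ≤ P1 → m1.IsQuad o1 N1 P1 →
    ∃ m : RMap (D1 ⊕ Bool), m.IsQuad (Sum.inr true) (N1 + 1) (P1 - 1) ∧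
      m.opp (Sum.inr true) = Sum.inr false ∧ (∀ d, m.opp (Sum.inl d) = Sum.inl (m1.opp d)) ∧
      m.rot (Sum.inr true) = Sum.inl o1 ∧
      m.rot (Sum.inr false) = Sum.inl ((m1.face ^ 3) o1) ∧
      (∀ d, m1.rot d ≠ o1 → m1.rot d ≠ (m1.face ^ 3) o1 → m.rot (Sum.inl d) = Sum.inl (m1.rot d)) ∧
      (∀ d, m1.rot d = o1 → m.rot (Sum.inl d) = Sum.inr true) ∧
      (∀ d, m1.rot d = (m1.face ^ 3) o1 → m.rot (Sum.inl d) = Sum.inr false)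

end

end QR
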