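import Pool.Agent.Helper98.QR.StmtsC

/-!
# C14: tail bound for the codes (tube volume)
-/

namespace QR

noncomputable section

open Filter Topology PowerSeries

theorem c14_TL_mono {a : PowerSeries ℝ} {c c' : ℝ} (h : TL a c) (hc : c ≤ c') : TL a c' := by
  refine ⟨h.1, fun ε hε => ?_⟩
  filter_upwards [h.2 ε hε] with M hM
  refine hM.trans ?_
  have h0 : (0 : ℝ) ≤ (M : ℝ) ^ (-(3 / 2) : ℝ) := Real.rpow_nonneg (Nat.cast_nonneg M) _
  exact mul_le_mul_of_nonneg_right (by linarith) h0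

theorem c14_Aw {l : ℤ} (hl : 1 ≤ l) : 1 ≤ Aw l := by
  have h : (1 : ℝ) ≤ (l : ℝ) := by exact_mod_cast hl
  unfold Aw
  rw [one_le_div (by positivity)]
  nlinarith

theorem c14_dn {P : ℕ} {k : ℤ} (hk : 0 ≤ k) {b : ℤ → ℤ} (hb : b ∈ Brd P k) {i : ℤ}
    (hi : i ∈ dn P b) : 1 ≤ b i := by
  have h1 := (Finset.mem_filter.1 hi).2
  have h2 := hb.2.2.1 (i + 1)
  omega

theorem st_C14 (h1 : ST_C01) (h3 : ST_C03) (h10 : ST_C10) (h13 : ST_C13) : ST_C14 := by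
  classical
  intro P k hP hk
  have hfin : (Brd P k).Finite := h1.2.1 P k hP
  rw [h3 one pos P k hP]
  have hb : ∀ b ∈ Brd P k, TL (∏ i ∈ dn P b, TS one pos (b i))
      (4 * ((∑ i ∈ dn P b, ((b i : ℝ) + 1) ^ 4) * ∏ i ∈ dn P b, Aw (b i))) := by
    intro b hb
    have hpos : ∀ i ∈ dn P b, 1 ≤ b i := fun i hi => c14_dn hk hb hi
    have := (h13.1 (dn P b) (fun i => TS one pos (b i)) (fun i => 4 * ((b i : ℝ) + 1) ^ 4)
      (fun i => Aw (b i)) (fun i _ => by positivity)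
      (fun i hi => (h10.1 (b i) (hpos i hi)).1)
      (fun i hi => le_of_eq (h10.1 (b i) (hpos i hi)).2)).1
    refine c14_TL_mono this ?_
    rw [Finset.sum_mul, Finset.mul_sum]
    refine Finset.sum_le_sum fun i hi => ?_
    have hA : ∏ j ∈ (dn P b).erase i, Aw (b j) ≤ ∏ j ∈ dn P b, Aw (b j) := by
      rw [← Finset.mul_prod_erase (dn P b) (fun j => Aw (b j)) hi]
      have h0 : 0 ≤ ∏ j ∈ (dn P b).erase i, Aw (b j) :=
        Finset.prod_nonneg fun j hj =>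
          zero_le_one.trans (c14_Aw (hpos j (Finset.mem_of_mem_erase hj)))
      have := c14_Aw (hpos i hi)
      nlinarith
    have h4 : (0 : ℝ) ≤ 4 * ((b i : ℝ) + 1) ^ 4 := by positivity
    calc 4 * ((b i : ℝ) + 1) ^ 4 * ∏ j ∈ (dn P b).erase i, Aw (b j)
        ≤ 4 * ((b i : ℝ) + 1) ^ 4 * ∏ j ∈ dn P b, Aw (b j) :=
          mul_le_mul_of_nonneg_left hA h4
      _ = _ := by ring
  have := h13.2 (Brd P k) (fun b => ∏ i ∈ dn P b, TS one pos (b i))
    (fun b => 4 * ((∑ i ∈ dn P b, ((b i : ℝ) + 1) ^ 4) * ∏ i ∈ dn P b, Aw (b i))) hfin hb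
  refine c14_TL_mono this (le_of_eq ?_)
  unfold Kst
  rw [finsum_mem_eq_finite_toFinset_sum _ hfin, finsum_mem_eq_finite_toFinset_sum _ hfin,
    Finset.mul_sum]

end

end QR
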