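import Pool.Agent.Helper3.QR.Pc

/-!
# Counting the glued maps
-/

namespace QR

namespace T07

noncomputable section

instance finRMap {D : Type} [Finite D] : Finite (RMap D) :=
  Finite.of_injective (fun m : RMap D => (m.rot, m.opp)) (by
    intro m m' h
    have h1 := (Prod.mk.inj h).1
    have h2 := (Prod.mk.inj h).2
    exact RMap.ext h1 h2)

theorem card_X (a b : ℕ) : (Nat.card (X a b) : ℝ) = (4 * a + 2 * b).factorial * VN a b := by
  rcases Nat.eq_zero_or_pos b with hb | hb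
  · subst hb
    rcases Nat.eq_zero_or_pos a with ha | ha
    · subst ha
      have h1 : Nat.card (X 0 0) = 1 := by
        rw [Nat.card_eq_one_iff_unique]
        constructor
        · constructor
          rintro ⟨⟨m1, o1⟩, hx⟩ ⟨⟨m2, o2⟩, hy⟩
          have hm : m1 = m2 := by
            apply RMap.ext
            · apply Equiv.ext; intro d; exact absurd d.2 (by simp)
            · apply Equiv.ext; intro d; exact absurd d.2 (by simp)
          have ho : o1 = o2 := by
            rcases hx with ⟨-, -, h1⟩ | ⟨hb, -⟩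
            · rcases hy with ⟨-, -, h2⟩ | ⟨hb', -⟩
              · exact Eq.trans h1 (Eq.symm h2)
              · omega
            · omega
          subst hm ho
          rfl
        · refine ⟨⟨(⟨1, 1, fun d => absurd d.2 (by simp), fun d => absurd d.2 (by simp)⟩, none), ?_⟩⟩
          exact Or.inl ⟨rfl, rfl, rfl⟩
      rw [h1]
      simp [VN]
    · have h1 : Nat.card (X a 0) = 0 := by
        rw [Nat.card_eq_zero]
        left
        constructor
        rintro ⟨x, hx⟩
        rcases hx with ⟨h, -, -⟩ | ⟨h, -⟩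
        · omega
        · omega
      rw [h1]
      have ha' : a ≠ 0 := by omega
      simp [VN, ha']
  · have hb' : b ≠ 0 := by omega
    have h1 : Nat.card (X a b) = Nat.card {x // x ∈ GQ a b} := by
      symm
      refine Nat.card_congr (Equiv.ofBijective
        (fun x : {x // x ∈ GQ a b} => (⟨(x.1.1, some x.1.2), Or.inr ⟨hb, x.1.2, rfl, x.2⟩⟩ : X a b)) ?_)
      constructor
      · rintro ⟨⟨m, o⟩, hx⟩ ⟨⟨m', o'⟩, hx'⟩ h
        have h0 := congrArg Subtype.val h
        have h1 := congrArg Prod.fst h0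
        have h2 := congrArg Prod.snd h0
        simp only at h1 h2
        subst h1
        have := Option.some.inj h2
        subst this
        rfl
      · rintro ⟨⟨m, o⟩, hx⟩
        rcases hx with ⟨-, h, -⟩ | ⟨-, o', ho, hq⟩
        · omega
        · simp only at ho
          subst ho
          exact ⟨⟨(m, o'), hq⟩, rfl⟩
    rw [h1]
    have : ((4 * a + 2 * b).factorial : ℝ) ≠ 0 := by
      exact_mod_cast Nat.factorial_ne_zero _
    unfold VN
    rw [if_neg hb']
    field_simp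

/-- the data of a glued map -/
abbrev Dat (a b a' c n : ℕ) : Type :=
  (Fin (4 * a + 2 * b) ⊕ Fin (4 * a' + 2 * c) ⊕ Bool ≃ Fin n) × X a b × X a' c

structure Rel {a b a' c n : ℕ} (y : RMap (Fin n) × Fin n) (t : Dat a b a' c n) : Prop where
  e : y.2 = t.1 (Sum.inr (Sum.inr true))
  e' : y.1.opp y.2 = t.1 (Sum.inr (Sum.inr false))
  p1 : Piece t.2.1.1.1 t.2.1.1.2 y.1 y.2 y.2 (fun d => t.1 (Sum.inl d))
  p2 : Piece t.2.2.1.1 t.2.2.1.2 y.1 y.2 (y.1.opp y.2) (fun d => t.1 (Sum.inr (Sum.inl d)))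

theorem count {a b a' c n : ℕ} (hn : n = (4 * a + 2 * b) + (4 * a' + 2 * c) + 2)
    (Ψ : Dat a b a' c n → RMap (Fin n) × Fin n) (hΨ : ∀ t, Rel (Ψ t) t) :
    (n.factorial : ℝ) * (VN a b * VN a' c) ≤ (Set.range Ψ).ncard := by
  classical
  let t0 : Dat a b a' c n → Dat a b a' c n := fun t => Set.rangeSplitting Ψ ⟨Ψ t, t, rfl⟩
  have ht0 : ∀ t, Ψ (t0 t) = Ψ t := fun t => Set.apply_rangeSplitting Ψ ⟨Ψ t, t, rfl⟩
  have ht0' : ∀ t t', Ψ t = Ψ t' → t0 t = t0 t' := by
    intro t t' h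
    have : (⟨Ψ t, t, rfl⟩ : Set.range Ψ) = ⟨Ψ t', t', rfl⟩ := Subtype.ext h
    show Set.rangeSplitting Ψ ⟨Ψ t, t, rfl⟩ = Set.rangeSplitting Ψ ⟨Ψ t', t', rfl⟩
    rw [this]
  have hR : ∀ t, Rel (Ψ t) (t0 t) := fun t => ht0 t ▸ hΨ (t0 t)
  have e1 : ∀ t, ∃ θ : Equiv.Perm (Fin (4 * a + 2 * b)),
      ∀ d, (t0 t).1 (Sum.inl (θ d)) = t.1 (Sum.inl d) := fun t => fib1 (hΨ t).p1 (hR t).p1
  have e2 : ∀ t, ∃ θ : Equiv.Perm (Fin (4 * a' + 2 * c)),
      ∀ d, (t0 t).1 (Sum.inr (Sum.inl (θ d))) = t.1 (Sum.inr (Sum.inl d)) :=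
    fun t => fib1 (hΨ t).p2 (hR t).p2
  choose θ1 h1 using e1
  choose θ2 h2 using e2
  let f : Dat a b a' c n → Set.range Ψ × Equiv.Perm (Fin (4 * a + 2 * b)) ×
      Equiv.Perm (Fin (4 * a' + 2 * c)) := fun t => (⟨Ψ t, t, rfl⟩, θ1 t, θ2 t)
  have hf : Function.Injective f := by
    intro t t' h
    have hy : Ψ t = Ψ t' := congrArg Subtype.val (Prod.mk.inj h).1
    have g1 : θ1 t = θ1 t' := (Prod.mk.inj (Prod.mk.inj h).2).1
    have g2 : θ2 t = θ2 t' := (Prod.mk.inj (Prod.mk.inj h).2).2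
    have g0 := ht0' t t' hy
    have hφ : t.1 = t'.1 := by
      apply Equiv.ext
      rintro (d | d | d)
      · rw [← h1 t, ← h1 t', g0, g1]
      · rw [← h2 t, ← h2 t', g0, g2]
      · cases d
        · rw [← (hΨ t).e', ← (hΨ t').e', hy]
        · rw [← (hΨ t).e, ← (hΨ t').e, hy]
    have p1 := (hΨ t').p1
    have p2 := (hΨ t').p2
    rw [← hφ, ← hy] at p1 p2
    have q1 := fib2 (hΨ t).p1 p1
    have q2 := fib2 (hΨ t).p2 p2
    exact Prod.ext hφ (Prod.ext q1 q2)
  have hc := Nat.card_le_card_of_injective f hf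
  rw [Nat.card_prod, Nat.card_prod, Nat.card_prod, Nat.card_prod, Nat.card_perm, Nat.card_perm,
    Nat.card_eq_fintype_card (α := Fin (4 * a + 2 * b)),
    Nat.card_eq_fintype_card (α := Fin (4 * a' + 2 * c)), Fintype.card_fin, Fintype.card_fin] at hc
  have hE : Nat.card (Fin (4 * a + 2 * b) ⊕ Fin (4 * a' + 2 * c) ⊕ Bool ≃ Fin n) = n.factorial := by
    have hcard : Fintype.card (Fin (4 * a + 2 * b) ⊕ Fin (4 * a' + 2 * c) ⊕ Bool) =
        Fintype.card (Fin n) := by
      simp only [Fintype.card_sum, Fintype.card_fin, Fintype.card_bool]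
      omega
    rw [Nat.card_eq_fintype_card, Fintype.card_equiv (Fintype.equivOfCardEq hcard), hcard,
      Fintype.card_fin]
  rw [hE] at hc
  have hc' : (n.factorial : ℝ) * ((Nat.card (X a b) : ℝ) * (Nat.card (X a' c) : ℝ)) ≤
      (Nat.card (Set.range Ψ) : ℝ) * (((4 * a + 2 * b).factorial : ℝ) *
        ((4 * a' + 2 * c).factorial : ℝ)) := by
    exact_mod_cast hc
  rw [card_X, card_X, Nat.card_coe_set_eq] at hc'
  have k1 : (0 : ℝ) < ((4 * a + 2 * b).factorial : ℝ) := by exact_mod_cast Nat.factorial_pos _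
  have k2 : (0 : ℝ) < ((4 * a' + 2 * c).factorial : ℝ) := by exact_mod_cast Nat.factorial_pos _
  have k3 := mul_pos k1 k2
  refine le_of_mul_le_mul_right ?_ k3
  calc (n.factorial : ℝ) * (VN a b * VN a' c) *
        (((4 * a + 2 * b).factorial : ℝ) * ((4 * a' + 2 * c).factorial : ℝ))
      = (n.factorial : ℝ) * (((4 * a + 2 * b).factorial : ℝ) * VN a b *
        (((4 * a' + 2 * c).factorial : ℝ) * VN a' c)) := by ring
    _ ≤ _ := hc'

end

end T07

end QR
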