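import Pool.Agent.Helper3.QR.Tr

/-!
# Pieces of a map cut along the root edge
-/

namespace QR

namespace T07

noncomputable section

open Classical in
/-- the next dart around the vertex when the root edge `e`, `opp e` is skipped -/
def sk {F : Type} (m : RMap F) (e d : F) : F :=
  if m.rot d = e ∨ m.rot d = m.opp e then m.rot (m.rot d) else m.rot d

/-- a piece of a map cut along the root edge -/
structure Piece {D F : Type} (m1 : RMap D) (o1 : Option D) (m : RMap F) (e r : F) (φ : D → F) :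
    Prop where
  inj : Function.Injective φ
  rot : ∀ d, sk m e (φ d) = φ (m1.rot d)
  opp : ∀ d, m.opp (φ d) = φ (m1.opp d)
  root : ∀ o, o1 = some o → φ o = m.rot r

theorem sk_tr {F F' : Type} (κ : F ≃ F') (m : RMap F) (e d : F) :
    sk (tr κ m) (κ e) (κ d) = κ (sk m e d) := by
  unfold sk
  rw [tr_rot, tr_rot, tr_opp]
  by_cases h : m.rot d = e ∨ m.rot d = m.opp e
  · rw [if_pos h, if_pos]
    rcases h with h | h
    · left; rw [h]
    · right; rw [h]
  · rw [if_neg h, if_neg]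
    rintro (h' | h')
    · exact h (Or.inl (κ.injective h'))
    · exact h (Or.inr (κ.injective h'))

theorem Piece.tr {D F F' : Type} {m1 : RMap D} {o1 : Option D} {m : RMap F} {e r : F} {φ : D → F}
    (h : Piece m1 o1 m e r φ) (κ : F ≃ F') : Piece m1 o1 (tr κ m) (κ e) (κ r) (κ ∘ φ) where
  inj := κ.injective.comp h.inj
  rot := by intro d; simp only [Function.comp]; rw [sk_tr, h.rot]
  opp := by intro d; simp only [Function.comp]; rw [tr_opp, h.opp]
  root := by intro o ho; simp only [Function.comp]; rw [tr_rot, h.root o ho]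

theorem Piece.sub {D D' F : Type} {m1 : RMap D} {o1 : D} {m1' : RMap D'} {o1' : D'} {m : RMap F}
    {e r : F} {φ : D → F} {φ' : D' → F} (h : Piece m1 (some o1) m e r φ)
    (h' : Piece m1' (some o1') m e r φ') (hc : m1.Conn) (d : D) : φ d ∈ Set.range φ' := by
  have := hc o1 d
  induction this with
  | refl => exact ⟨o1', by rw [h.root o1 rfl, h'.root o1' rfl]⟩
  | tail _ hab ih =>
    obtain ⟨z, hz⟩ := ih
    rcases hab with hab | hab
    · refine ⟨m1'.rot z, ?_⟩
      rw [hab, ← h.rot, ← h'.rot, hz]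
    · refine ⟨m1'.opp z, ?_⟩
      rw [hab, ← h.opp, ← h'.opp, hz]

/-- uniqueness of a piece up to relabelling -/
theorem Piece.uniq {D D' F : Type} {m1 : RMap D} {o1 : D} {m1' : RMap D'} {o1' : D'} {m : RMap F}
    {e r : F} {φ : D → F} {φ' : D' → F} (h : Piece m1 (some o1) m e r φ)
    (h' : Piece m1' (some o1') m e r φ') (hc : m1.Conn) (hc' : m1'.Conn) :
    ∃ θ : D ≃ D', (∀ d, φ' (θ d) = φ d) ∧ θ o1 = o1' ∧ m1' = T07.tr θ m1 := by
  have hr : Set.range φ = Set.range φ' := by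
    apply Set.Subset.antisymm
    · rintro _ ⟨d, rfl⟩
      exact h.sub h' hc d
    · rintro _ ⟨d, rfl⟩
      exact h'.sub h hc' d
  let θ : D ≃ D' := (Equiv.ofInjective φ h.inj).trans
    ((Equiv.setCongr hr).trans (Equiv.ofInjective φ' h'.inj).symm)
  have hθ : ∀ d, φ' (θ d) = φ d := by
    intro d
    have := Equiv.apply_ofInjective_symm h'.inj (⟨φ d, hr ▸ ⟨d, rfl⟩⟩ : Set.range φ')
    exact this
  refine ⟨θ, hθ, ?_, ?_⟩
  · apply h'.inj
    rw [hθ, h.root o1 rfl, h'.root o1' rfl]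
  · have hrot : ∀ d, m1'.rot (θ d) = θ (m1.rot d) := by
      intro d
      apply h'.inj
      rw [← h'.rot, hθ, hθ, h.rot]
    have hopp : ∀ d, m1'.opp (θ d) = θ (m1.opp d) := by
      intro d
      apply h'.inj
      rw [← h'.opp, hθ, hθ, h.opp]
    apply RMap.ext
    · ext d
      obtain ⟨z, rfl⟩ := θ.surjective d
      rw [hrot, tr_rot]
    · ext d
      obtain ⟨z, rfl⟩ := θ.surjective d
      rw [hopp, tr_opp]

/-- rooted maps, or the vertex map (root `none`) -/
def X (a b : ℕ) : Set (RMap (Fin (4 * a + 2 * b)) × Option (Fin (4 * a + 2 * b))) :=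
  {x | (a = 0 ∧ b = 0 ∧ x.2 = none) ∨ (1 ≤ b ∧ ∃ o, x.2 = some o ∧ x.1.IsQuad o a b)}

theorem fib1 {a b : ℕ} {F : Type} {x x' : X a b} {m : RMap F} {e r : F}
    {φ φ' : Fin (4 * a + 2 * b) → F} (h : Piece x.1.1 x.1.2 m e r φ)
    (h' : Piece x'.1.1 x'.1.2 m e r φ') :
    ∃ θ : Equiv.Perm (Fin (4 * a + 2 * b)), ∀ d, φ' (θ d) = φ d := by
  obtain ⟨⟨m1, o1⟩, hx⟩ := x
  obtain ⟨⟨m1', o1'⟩, hx'⟩ := x'
  rcases hx with ⟨ha, hb, -⟩ | ⟨hb, o, ho, hq⟩
  · subst ha hb
    refine ⟨1, fun d => ?_⟩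
    exact absurd d.2 (by simp)
  · rcases hx' with ⟨ha', hb', -⟩ | ⟨hb', o', ho', hq'⟩
    · omega
    · simp only at ho ho'
      subst ho ho'
      obtain ⟨θ, h1, -, -⟩ := h.uniq h' hq.planar.2.1 hq'.planar.2.1
      exact ⟨θ, h1⟩

theorem fib2 {a b : ℕ} {F : Type} {x x' : X a b} {m : RMap F} {e r : F}
    {φ : Fin (4 * a + 2 * b) → F} (h : Piece x.1.1 x.1.2 m e r φ)
    (h' : Piece x'.1.1 x'.1.2 m e r φ) : x = x' := by
  obtain ⟨⟨m1, o1⟩, hx⟩ := x
  obtain ⟨⟨m1', o1'⟩, hx'⟩ := x'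
  have hm : m1 = m1' := by
    apply RMap.ext
    · apply Equiv.ext
      intro d
      apply h.inj
      have e1 := h.rot d
      have e2 := h'.rot d
      exact e1.symm.trans e2
    · apply Equiv.ext
      intro d
      apply h.inj
      have e1 := h.opp d
      have e2 := h'.opp d
      exact e1.symm.trans e2
  have ho : o1 = o1' := by
    rcases hx with ⟨ha, hb, h1⟩ | ⟨hb, o, ho, hq⟩
    · rcases hx' with ⟨ha', hb', h2⟩ | ⟨hb', o', ho', hq'⟩
      · exact Eq.trans h1 (Eq.symm h2)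
      · omega
    · rcases hx' with ⟨ha', hb', h2⟩ | ⟨hb', o', ho', hq'⟩
      · omega
      · simp only at ho ho'
        rw [ho, ho']
        congr 1
        apply h.inj
        have e1 := h.root o ho
        have e2 := h'.root o' ho'
        exact e1.trans e2.symm
  subst hm ho
  rfl

end

end T07

end QR
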