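import Pool.Agent.Helper3.QR.StT

/-!
# Transport of maps along bijections; pieces of a map
-/

namespace QR

namespace T07

noncomputable section

/-- transport of a map along a bijection -/
def tr {D D' : Type} (e : D ≃ D') (m : RMap D) : RMap D' where
  rot := e.permCongr m.rot
  opp := e.permCongr m.opp
  opp_opp := by intro d; simp [Equiv.permCongr_apply, m.opp_opp]
  opp_ne := by
    intro d h
    have h' : e (m.opp (e.symm d)) = d := by simpa [Equiv.permCongr_apply] using h
    have h2 := congrArg e.symm h'
    rw [Equiv.symm_apply_apply] at h2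
    exact m.opp_ne _ h2

@[simp] theorem tr_rot {D D' : Type} (e : D ≃ D') (m : RMap D) (d : D) :
    (tr e m).rot (e d) = e (m.rot d) := by
  simp [tr, Equiv.permCongr_apply]

@[simp] theorem tr_opp {D D' : Type} (e : D ≃ D') (m : RMap D) (d : D) :
    (tr e m).opp (e d) = e (m.opp d) := by
  simp [tr, Equiv.permCongr_apply]

theorem tr_face {D D' : Type} (e : D ≃ D') (m : RMap D) :
    (tr e m).face = e.permCongr m.face := by
  ext d
  simp [RMap.face, tr, Equiv.permCongr_apply]

theorem pow_permCongr {D D' : Type} (e : D ≃ D') (σ : Equiv.Perm D) (k : ℤ) (x : D) :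
    ((e.permCongr σ) ^ k) (e x) = e ((σ ^ k) x) := by
  have h : (e.permCongr σ) ^ k = e.permCongr (σ ^ k) := (map_zpow e.permCongrHom σ k).symm
  rw [h]
  simp [Equiv.permCongr_apply]

theorem same_permCongr {D D' : Type} (e : D ≃ D') (σ : Equiv.Perm D) (x y : D) :
    (e.permCongr σ).SameCycle (e x) (e y) ↔ σ.SameCycle x y := by
  constructor
  · rintro ⟨k, hk⟩
    refine ⟨k, ?_⟩
    rw [pow_permCongr] at hk
    exact e.injective hk
  · rintro ⟨k, hk⟩
    refine ⟨k, ?_⟩
    rw [pow_permCongr, hk]

theorem card_quot_permCongr {D D' : Type} (e : D ≃ D') (σ : Equiv.Perm D) :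
    Nat.card (Quotient (Equiv.Perm.SameCycle.setoid (e.permCongr σ))) =
      Nat.card (Quotient (Equiv.Perm.SameCycle.setoid σ)) := by
  refine (Nat.card_congr (Quotient.congr e ?_)).symm
  intro a b
  exact (same_permCongr e σ a b).symm

theorem isQuad_tr {D D' : Type} (e : D ≃ D') (m : RMap D) (o : D) (N P : ℕ)
    (h : m.IsQuad o N P) : (tr e m).IsQuad (e o) N P := by
  have hf : ∀ d, (tr e m).fdeg (e d) = m.fdeg d := by
    intro d
    unfold RMap.fdeg
    refine (Nat.card_congr (e.subtypeEquiv ?_)).symm
    intro a
    rw [tr_face, same_permCongr]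
  refine ⟨⟨?_, ?_, ?_⟩, ?_, ?_, ?_⟩
  · obtain ⟨d⟩ := h.planar.1
    exact ⟨e d⟩
  · intro d d'
    have key : ∀ x y, Relation.ReflTransGen (fun a b => b = m.rot a ∨ b = m.opp a) x y →
        Relation.ReflTransGen (fun a b => b = (tr e m).rot a ∨ b = (tr e m).opp a) (e x) (e y) := by
      intro x y hxy
      induction hxy with
      | refl => exact Relation.ReflTransGen.refl
      | tail _ hab ih =>
        refine ih.tail ?_
        rcases hab with h | h
        · left; rw [h, tr_rot]
        · right; rw [h, tr_opp]
    have := key _ _ (h.planar.2.1 (e.symm d) (e.symm d'))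
    simpa using this
  · have h1 : Nat.card (tr e m).Vert = Nat.card m.Vert := card_quot_permCongr e m.rot
    have h2 : Nat.card (tr e m).Face = Nat.card m.Face := by
      have := card_quot_permCongr e m.face
      rw [← tr_face] at this
      exact this
    rw [h1, h2, h.planar.2.2, Nat.card_congr e]
  · rw [hf, h.outer]
  · intro d hd
    have hd' : ¬ m.face.SameCycle o (e.symm d) := by
      intro h3
      apply hd
      rw [tr_face]
      have := (same_permCongr e m.face o (e.symm d)).2 h3
      simpa using this
    have := h.inner _ hd'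
    rw [← hf] at this
    simpa using this
  · rw [← Nat.card_congr e, h.card]

end

end T07

end QR
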